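import Pool.Agent.N299.PX.Stm

/-!
PX/BSP: bridge for strong pure infiniteness (helper31 for the project PX of helper299).
-/

set_option autoImplicit false

open Filter

namespace Pool.Agent.N31.PX

open Pool.Agent.N299 Pool.Agent.N299.DT Pool.Agent.N299.ND Pool.Agent.N299.ND.Pub
open Pool.Agent.N299.PX Pool.Agent.N299.PX.Pub

theorem t_BSP : S_BSP := by
  intro A B _ _ ι I hI hSp M hM
  obtain ⟨Y, hY⟩ := hM
  have hMij : ∀ i j, M i j = ∑ s, star (Y s i) * Y s j := by
    intro i j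
    rw [hY, Matrix.mul_apply]
    rfl
  have hpos : ∀ i, Pos (ι (M i i)) := by
    intro i
    rw [hMij, map_sum]
    refine Pos.sum _ _ fun s _ => ?_
    rw [map_mul, map_star]
    exact pos_star_mul _
  have hstar : M 1 0 = star (M 0 1) := by
    rw [hMij, hMij, star_sum]
    refine Finset.sum_congr rfl fun s _ => ?_
    rw [star_mul, star_star]
  have hmem : ∀ x, ι x ∈ I := fun x => (hI.mem _).2 ⟨x, rfl⟩
  have hk : ∀ k : ℕ, ∃ d e : A, ‖d * M 0 0 * star d - M 0 0‖ ≤ 1 / ((k : ℝ) + 1) ∧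
      ‖e * M 1 1 * star e - M 1 1‖ ≤ 1 / ((k : ℝ) + 1) ∧
      ‖d * M 0 1 * star e‖ ≤ 1 / ((k : ℝ) + 1) := by
    intro k
    obtain ⟨d, hd, e, he, h1, h2, h3⟩ := hSp (ι (M 0 0)) (hmem _) (ι (M 1 1)) (hmem _)
      (ι (M 0 1)) (hmem _) (hpos 0) (hpos 1) (1 / ((k : ℝ) + 1)) (by positivity)
    obtain ⟨d', rfl⟩ := (hI.mem d).1 hd
    obtain ⟨e', rfl⟩ := (hI.mem e).1 he
    rw [← map_star, ← map_mul, ← map_mul, ← map_sub, NonUnitalStarAlgHom.norm_map ι hI.inj] at h1 h2
    rw [← map_star, ← map_mul, ← map_mul, NonUnitalStarAlgHom.norm_map ι hI.inj] at h3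
    exact ⟨d', e', h1, h2, h3⟩
  choose d e h1 h2 h3 using hk
  have hε : Tendsto (fun k : ℕ => 1 / ((k : ℝ) + 1)) atTop (nhds 0) :=
    tendsto_one_div_add_atTop_nhds_zero_nat
  refine ⟨fun k => ![d k, e k], ?_⟩
  have hent : ∀ (k : ℕ) (i j : Fin 2), (Matrix.diagonal (![d k, e k]) * M *
      Matrix.conjTranspose (Matrix.diagonal (![d k, e k]))) i j =
      (![d k, e k] : Fin 2 → A) i * M i j * star ((![d k, e k] : Fin 2 → A) j) := by
    intro k i j
    rw [Matrix.diagonal_conjTranspose, Matrix.mul_diagonal, Matrix.diagonal_mul]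
    rfl
  refine tendsto_pi_nhds.2 fun i => tendsto_pi_nhds.2 fun j => ?_
  simp only [hent]
  fin_cases i <;> fin_cases j
  · show Tendsto (fun k => d k * M 0 0 * star (d k)) atTop (nhds (M 0 0))
    rw [tendsto_iff_norm_sub_tendsto_zero]
    exact squeeze_zero (fun k => norm_nonneg _) h1 hε
  · show Tendsto (fun k => d k * M 0 1 * star (e k)) atTop (nhds 0)
    rw [tendsto_zero_iff_norm_tendsto_zero]
    exact squeeze_zero (fun k => norm_nonneg _) h3 hε
  · show Tendsto (fun k => e k * M 1 0 * star (d k)) atTop (nhds 0)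
    rw [tendsto_zero_iff_norm_tendsto_zero]
    refine squeeze_zero (fun k => norm_nonneg _) (fun k => ?_) hε
    have : e k * M 1 0 * star (d k) = star (d k * M 0 1 * star (e k)) := by
      rw [star_mul, star_mul, star_star, hstar, mul_assoc]
    rw [this, norm_star]
    exact h3 k
  · show Tendsto (fun k => e k * M 1 1 * star (e k)) atTop (nhds (M 1 1))
    rw [tendsto_iff_norm_sub_tendsto_zero]
    exact squeeze_zero (fun k => norm_nonneg _) h2 hε

end Pool.Agent.N31.PX
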